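import Mathlib

/-!
# An `L^∞`-bounded form semigroup which is contractive for no admissible weight

On `L²` of the two point set with counting measure, the form `a(u,v) = ⟨A u, v⟩` with
`A = [[1, 2], [-2, 1]]` is closed and sectorial, its semigroup `e^{-tA}` is `e^{-t}` times the
rotation by `2t`, hence `L^∞`-bounded, but it is contractive for no weighted sup norm.
-/

open MeasureTheory Filter Topology
open scoped InnerProductSpace ENNReal

namespace Pool.Agent.Results.MP_916daf_an.RotationSemigroup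

section Hilbert

variable {H : Type*} [NormedAddCommGroup H] [InnerProductSpace ℂ H]

/-- Sesquilinear forms with domain a subspace `V` of the Hilbert space `H`: linear in the first
and antilinear in the second argument (the values of `a` outside of `V × V` are irrelevant). -/
structure SesqForm (H : Type*) [NormedAddCommGroup H] [InnerProductSpace ℂ H] where
  V : Submodule ℂ H
  a : H → H → ℂ
  add_left : ∀ u ∈ V, ∀ u' ∈ V, ∀ v ∈ V, a (u + u') v = a u v + a u' v
  smul_left : ∀ c : ℂ, ∀ u ∈ V, ∀ v ∈ V, a (c • u) v = c * a u v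
  add_right : ∀ u ∈ V, ∀ v ∈ V, ∀ v' ∈ V, a u (v + v') = a u v + a u v'
  smul_right : ∀ c : ℂ, ∀ u ∈ V, ∀ v ∈ V, a u (c • v) = starRingEnd ℂ c * a u v

/-- The form takes its values `a(u,u)` in a sector `Σ_θ`, `0 ≤ θ < π/2`. -/
def Sectorial (F : SesqForm H) : Prop :=
  ∃ θ : ℝ, 0 ≤ θ ∧ θ < Real.pi / 2 ∧ ∀ u ∈ F.V, F.a u u = 0 ∨ |Complex.arg (F.a u u)| ≤ θ

/-- The form norm. -/
noncomputable def formNorm (F : SesqForm H) (u : H) : ℝ :=
  Real.sqrt ((F.a u u).re + ‖u‖ ^ 2)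

/-- The form is closed: `V` is complete for the form norm. -/
def ClosedForm (F : SesqForm H) : Prop :=
  ∀ u : ℕ → H, (∀ n, u n ∈ F.V) →
    (∀ ε > 0, ∃ N, ∀ m ≥ N, ∀ n ≥ N, formNorm F (u m - u n) < ε) →
    ∃ v ∈ F.V, ∀ ε > 0, ∃ N, ∀ n ≥ N, formNorm F (u n - v) < ε

/-- The graph of the operator associated with the form: `A u = h`. -/
def AssocOp (F : SesqForm H) (u h : H) : Prop :=
  u ∈ F.V ∧ ∀ v ∈ F.V, F.a u v = ⟪v, h⟫_ℂ

/-- `T` is a `C_0`-semigroup of bounded linear operators on `H`. -/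
structure IsC0Semigroup (T : ℝ → H → H) : Prop where
  bdd : ∀ t, 0 ≤ t → IsBoundedLinearMap ℂ (T t)
  zero : ∀ f, T 0 f = f
  add : ∀ s t, 0 ≤ s → 0 ≤ t → ∀ f, T (s + t) f = T s (T t f)
  cont : ∀ f, ContinuousOn (fun t => T t f) (Set.Ici 0)

/-- The negative of the operator with graph `R` is the generator of `T`. -/
def NegGenerates (R : H → H → Prop) (T : ℝ → H → H) : Prop :=
  ∀ u h, R u h ↔ Tendsto (fun t : ℝ => ((t⁻¹ : ℝ) : ℂ) • (T t u - u)) (𝓝[>] 0) (𝓝 (-h))

end Hilbert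

section Defs

variable {Ω : Type*} [MeasurableSpace Ω] {μ : Measure Ω}

/-- `L^∞`-boundedness of `T`. -/
def LInftyBounded (T : ℝ → Lp ℂ 2 μ → Lp ℂ 2 μ) : Prop :=
  ∃ M : ℝ, 1 ≤ M ∧ ∀ t, 0 ≤ t → ∀ f : Lp ℂ 2 μ, MemLp f ∞ μ →
    eLpNorm (T t f) ∞ μ ≤ ENNReal.ofReal M * eLpNorm f ∞ μ

/-- Admissible weights. -/
structure AdmissibleWeight (μ : Measure Ω) (g : Ω → ℝ) : Prop where
  meas : Measurable g
  pos : ∀ᵐ x ∂μ, 0 < g x
  bdd : MemLp g ∞ μ
  inv_bdd : MemLp (fun x => (g x)⁻¹) ∞ μ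

/-- `T` is contractive for the weight `g`. -/
def ContractiveFor (T : ℝ → Lp ℂ 2 μ → Lp ℂ 2 μ) (g : Ω → ℝ) : Prop :=
  ∀ t, 0 ≤ t → ∀ f : Lp ℂ 2 μ, MemLp f ∞ μ →
    eLpNorm (fun x => (g x : ℂ) * T t f x) ∞ μ ≤ eLpNorm (fun x => (g x : ℂ) * f x) ∞ μ

end Defs

/-- The `L²` space of the two point set. -/
noncomputable abbrev E := Lp ℂ 2 (Measure.count : Measure (Fin 2))

theorem ext_iff' {f g : E} : f = g ↔ ∀ i, f i = g i := by
  rw [Lp.ext_iff]
  exact Measure.ae_count_iff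

theorem memLp_all (v : Fin 2 → ℂ) (p : ℝ≥0∞) (hp : p ≠ 0) :
    MemLp v p (Measure.count : Measure (Fin 2)) :=
  ⟨.of_discrete, (eLpNorm_count_lt_top hp).2 fun i => by simp⟩

/-- The element of `L²` with given values. -/
noncomputable def mk (v : Fin 2 → ℂ) : E := (memLp_all v 2 (by norm_num)).toLp v

theorem mk_fn (v : Fin 2 → ℂ) (i : Fin 2) : (mk v) i = v i :=
  Measure.ae_count_iff.1 (MemLp.coeFn_toLp (memLp_all v 2 (by norm_num))) i

/-- The linear isomorphism of `L²` of the two point set with `ℂ²`. -/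
noncomputable def Φ : E ≃ₗ[ℂ] (Fin 2 → ℂ) where
  toFun f := fun i => f i
  map_add' f g := by
    funext i
    exact Measure.ae_count_iff.1 (Lp.coeFn_add f g) i
  map_smul' c f := by
    funext i
    exact Measure.ae_count_iff.1
      (Lp.coeFn_smul c f) i
  invFun v := mk v
  left_inv f := by
    rw [ext_iff']
    intro i
    exact mk_fn _ i
  right_inv v := by
    funext i
    exact mk_fn _ i

theorem Φ_apply (f : E) (i : Fin 2) : Φ f i = f i := rfl

theorem Φ_symm_apply (v : Fin 2 → ℂ) (i : Fin 2) : (Φ.symm v : E) i = v i :=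
  congrFun (Φ.apply_symm_apply v) i

instance : FiniteDimensional ℂ E := Module.Finite.equiv Φ.symm

/-- The operator `A`. -/
def Aop : (Fin 2 → ℂ) →ₗ[ℂ] (Fin 2 → ℂ) where
  toFun v := ![v 0 + 2 * v 1, -2 * v 0 + v 1]
  map_add' v w := by
    funext i; fin_cases i <;> simp <;> ring
  map_smul' c v := by
    funext i; fin_cases i <;> simp <;> ring

/-- The semigroup on `ℂ²`. -/
noncomputable def Mop (t : ℝ) : (Fin 2 → ℂ) →ₗ[ℂ] (Fin 2 → ℂ) where
  toFun v := ![(Real.exp (-t) * Real.cos (2 * t) : ℝ) * v 0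
      - (Real.exp (-t) * Real.sin (2 * t) : ℝ) * v 1,
    (Real.exp (-t) * Real.sin (2 * t) : ℝ) * v 0 + (Real.exp (-t) * Real.cos (2 * t) : ℝ) * v 1]
  map_add' v w := by
    funext i; fin_cases i <;> simp <;> ring
  map_smul' c v := by
    funext i; fin_cases i <;> simp <;> ring

/-- The semigroup on `L²`. -/
noncomputable def TL (t : ℝ) : E →L[ℂ] E :=
  LinearMap.toContinuousLinearMap (Φ.symm.toLinearMap ∘ₗ Mop t ∘ₗ Φ.toLinearMap)

/-- The semigroup on `L²`, as maps. -/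
noncomputable def T (t : ℝ) (f : E) : E := TL t f

theorem T_apply (t : ℝ) (f : E) : T t f = Φ.symm (Mop t (Φ f)) := rfl

/-- The operator on `L²`. -/
noncomputable def AE : E →ₗ[ℂ] E := Φ.symm.toLinearMap ∘ₗ Aop ∘ₗ Φ.toLinearMap

theorem AE_apply (f : E) : AE f = Φ.symm (Aop (Φ f)) := rfl

theorem inner_E (f g : E) :
    ⟪f, g⟫_ℂ = starRingEnd ℂ (f 0) * g 0 + starRingEnd ℂ (f 1) * g 1 := by
  rw [L2.inner_def, integral_count, Fin.sum_univ_two]
  simp [mul_comm]

/-- The form. -/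
noncomputable def form : SesqForm E where
  V := ⊤
  a u v := ⟪v, AE u⟫_ℂ
  add_left u _ u' _ v _ := by rw [map_add]; exact inner_add_right _ _ _
  smul_left c u _ v _ := by rw [map_smul]; exact inner_smul_right _ _ _
  add_right u _ v _ v' _ := inner_add_left _ _ _
  smul_right c u _ v _ := inner_smul_left _ _ _

theorem form_apply (u v : E) : form.a u v = ⟪v, AE u⟫_ℂ := rfl

theorem form_self (u : E) :
    (form.a u u).re = ‖u‖ ^ 2 ∧ |(form.a u u).im| ≤ 2 * (form.a u u).re := by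
  have h1 : ‖u‖ ^ 2 = (⟪u, u⟫_ℂ).re := by
    have h0 : ⟪u, u⟫_ℂ = (‖u‖ : ℂ) ^ 2 := inner_self_eq_norm_sq_to_K u
    rw [h0]; norm_cast
  have h2 : form.a u u = starRingEnd ℂ (u 0) * (u 0 + 2 * u 1)
      + starRingEnd ℂ (u 1) * (-2 * u 0 + u 1) := by
    rw [form_apply, inner_E]
    rw [AE_apply, Φ_symm_apply, Φ_symm_apply]
    rfl
  rw [h1, inner_E, h2]
  set x := u 0
  set y := u 1
  simp only [Complex.add_re, Complex.mul_re, Complex.conj_re, Complex.conj_im, Complex.add_im,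
    Complex.mul_im, Complex.neg_re, Complex.neg_im, Complex.re_ofNat, Complex.im_ofNat]
  constructor
  · ring
  · rw [abs_le]
    constructor <;> nlinarith [sq_nonneg (x.re - y.im), sq_nonneg (x.re + y.im),
      sq_nonneg (x.im - y.re), sq_nonneg (x.im + y.re)]

theorem form_sectorial : Sectorial form := by
  refine ⟨Real.arctan 2, Real.arctan_nonneg.2 (by norm_num), Real.arctan_lt_pi_div_two 2, ?_⟩
  intro u _
  obtain ⟨h1, h2⟩ := form_self u
  set z := form.a u u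
  by_cases hz : z.re = 0
  · left
    rw [hz] at h2
    have : z.im = 0 := by
      have := abs_nonneg z.im
      have h3 : |z.im| = 0 := by linarith
      exact abs_eq_zero.1 h3
    exact Complex.ext hz this
  · right
    have hpos : 0 < z.re := by
      have : 0 ≤ z.re := by rw [h1]; positivity
      exact lt_of_le_of_ne this (Ne.symm hz)
    have harg : Complex.arg z = Real.arctan (z.im / z.re) := by
      rw [← Complex.tan_arg, Real.arctan_tan]
      · have := Complex.abs_arg_lt_pi_div_two_iff.2 (Or.inl hpos)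
        exact (abs_lt.1 this).1
      · have := Complex.abs_arg_lt_pi_div_two_iff.2 (Or.inl hpos)
        exact (abs_lt.1 this).2
    rw [harg]
    rw [abs_le] at h2 ⊢
    constructor
    · rw [← Real.arctan_neg]
      apply Real.arctan_strictMono.monotone
      rw [le_div_iff₀ hpos]
      linarith [h2.1]
    · apply Real.arctan_strictMono.monotone
      rw [div_le_iff₀ hpos]
      linarith [h2.2]

theorem formNorm_eq (u : E) : formNorm form u = Real.sqrt 2 * ‖u‖ := by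
  rw [formNorm, (form_self u).1]
  rw [show ‖u‖ ^ 2 + ‖u‖ ^ 2 = 2 * ‖u‖ ^ 2 by ring]
  rw [Real.sqrt_mul (by norm_num), Real.sqrt_sq (norm_nonneg _)]

theorem form_closed : ClosedForm form := by
  intro u _ hu
  have hs : 0 < Real.sqrt 2 := Real.sqrt_pos.2 (by norm_num)
  have hc : CauchySeq u := by
    rw [Metric.cauchySeq_iff]
    intro ε hε
    obtain ⟨N, hN⟩ := hu (Real.sqrt 2 * ε) (by positivity)
    refine ⟨N, fun m hm n hn => ?_⟩
    have := hN m hm n hn
    rw [formNorm_eq] at this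
    have h2 := lt_of_mul_lt_mul_left this hs.le
    rw [dist_eq_norm]
    exact h2
  obtain ⟨v, hv⟩ := cauchySeq_tendsto_of_complete hc
  refine ⟨v, trivial, fun ε hε => ?_⟩
  rw [Metric.tendsto_atTop] at hv
  obtain ⟨N, hN⟩ := hv (ε / Real.sqrt 2) (by positivity)
  refine ⟨N, fun n hn => ?_⟩
  have := hN n hn
  rw [formNorm_eq]
  rw [dist_eq_norm, lt_div_iff₀ hs, mul_comm] at this
  exact this

theorem T_semigroup : IsC0Semigroup T where
  bdd t _ := (TL t).isBoundedLinearMap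
  zero f := by
    rw [T_apply]
    have : Mop 0 (Φ f) = Φ f := by
      funext i
      fin_cases i <;> simp [Mop]
    rw [this, LinearEquiv.symm_apply_apply]
  add s t _ _ f := by
    rw [T_apply, T_apply, T_apply, LinearEquiv.apply_symm_apply]
    congr 1
    set v := Φ f
    funext i
    have e1 : Real.exp (-(s + t)) = Real.exp (-s) * Real.exp (-t) := by
      rw [← Real.exp_add]; ring_nf
    have e2 : Real.cos (2 * (s + t)) = Real.cos (2 * s) * Real.cos (2 * t)
        - Real.sin (2 * s) * Real.sin (2 * t) := by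
      rw [← Real.cos_add]; ring_nf
    have e3 : Real.sin (2 * (s + t)) = Real.sin (2 * s) * Real.cos (2 * t)
        + Real.cos (2 * s) * Real.sin (2 * t) := by
      rw [← Real.sin_add]; ring_nf
    fin_cases i
    · simp only [Mop, LinearMap.coe_mk, AddHom.coe_mk, e1, e2, e3]
      simp
      ring
    · simp only [Mop, LinearMap.coe_mk, AddHom.coe_mk, e1, e2, e3]
      simp
      ring
  cont f := by
    apply Continuous.continuousOn
    have h1 : Continuous (Φ.symm : (Fin 2 → ℂ) → E) :=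
      LinearMap.continuous_of_finiteDimensional Φ.symm.toLinearMap
    refine h1.comp ?_
    refine continuous_pi fun i => ?_
    fin_cases i
    · simp [Mop]
      fun_prop
    · simp [Mop]
      fun_prop

theorem deriv1 : HasDerivAt (fun t : ℝ => Real.exp (-t) * Real.cos (2 * t)) (-1) 0 := by
  have h1 : HasDerivAt (fun t : ℝ => Real.exp (-t)) (Real.exp (-0) * (-1)) 0 :=
    ((hasDerivAt_id (0 : ℝ)).neg).exp
  have h2 : HasDerivAt (fun t : ℝ => Real.cos (2 * t)) (-Real.sin (2 * 0) * (2 * 1)) 0 :=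
    ((hasDerivAt_id (0 : ℝ)).const_mul 2).cos
  have h3 := h1.fun_mul h2
  simpa using h3

theorem deriv2 : HasDerivAt (fun t : ℝ => Real.exp (-t) * Real.sin (2 * t)) 2 0 := by
  have h1 : HasDerivAt (fun t : ℝ => Real.exp (-t)) (Real.exp (-0) * (-1)) 0 :=
    ((hasDerivAt_id (0 : ℝ)).neg).exp
  have h2 : HasDerivAt (fun t : ℝ => Real.sin (2 * t)) (Real.cos (2 * 0) * (2 * 1)) 0 :=
    ((hasDerivAt_id (0 : ℝ)).const_mul 2).sin
  have h3 := h1.fun_mul h2
  simpa using h3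

theorem Mop_deriv (v : Fin 2 → ℂ) : HasDerivAt (fun t => Mop t v) (-(Aop v)) 0 := by
  rw [hasDerivAt_pi]
  have d1 := deriv1.ofReal_comp
  have d2 := deriv2.ofReal_comp
  intro i
  fin_cases i
  · have h : HasDerivAt (fun t : ℝ => ((Real.exp (-t) * Real.cos (2 * t) : ℝ) : ℂ) * v 0
        - ((Real.exp (-t) * Real.sin (2 * t) : ℝ) : ℂ) * v 1)
        (((-1 : ℝ) : ℂ) * v 0 - ((2 : ℝ) : ℂ) * v 1) 0 := (d1.mul_const (v 0)).sub (d2.mul_const (v 1))
    have hA : (-(Aop v)) 0 = ((-1 : ℝ) : ℂ) * v 0 - ((2 : ℝ) : ℂ) * v 1 := by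
      have : (Aop v) 0 = v 0 + 2 * v 1 := rfl
      rw [Pi.neg_apply, this]
      push_cast
      ring
    show HasDerivAt (fun t => Mop t v 0) ((-(Aop v)) 0) 0
    rw [hA]
    exact h
  · have h : HasDerivAt (fun t : ℝ => ((Real.exp (-t) * Real.sin (2 * t) : ℝ) : ℂ) * v 0
        + ((Real.exp (-t) * Real.cos (2 * t) : ℝ) : ℂ) * v 1)
        (((2 : ℝ) : ℂ) * v 0 + ((-1 : ℝ) : ℂ) * v 1) 0 := (d2.mul_const (v 0)).add (d1.mul_const (v 1))
    have hA : (-(Aop v)) 1 = ((2 : ℝ) : ℂ) * v 0 + ((-1 : ℝ) : ℂ) * v 1 := by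
      have : (Aop v) 1 = -2 * v 0 + v 1 := rfl
      rw [Pi.neg_apply, this]
      push_cast
      ring
    show HasDerivAt (fun t => Mop t v 1) ((-(Aop v)) 1) 0
    rw [hA]
    exact h

theorem tendsto_T (u : E) :
    Tendsto (fun t : ℝ => ((t⁻¹ : ℝ) : ℂ) • (T t u - u)) (𝓝[>] 0) (𝓝 (-(AE u))) := by
  have h1 : Continuous (Φ.symm : (Fin 2 → ℂ) → E) :=
    LinearMap.continuous_of_finiteDimensional Φ.symm.toLinearMap
  have h2 := (hasDerivAt_iff_tendsto_slope_zero.1 (Mop_deriv (Φ u))).mono_left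
    (nhdsWithin_mono _ (fun t ht => ne_of_gt ht) : 𝓝[>] (0 : ℝ) ≤ 𝓝[≠] 0)
  have h3 := (h1.tendsto (-(Aop (Φ u)))).comp h2
  have h4 : Φ.symm (-(Aop (Φ u))) = -(AE u) := by
    rw [map_neg]; rfl
  rw [h4] at h3
  refine h3.congr fun t => ?_
  have h5 : Mop 0 (Φ u) = Φ u := by
    funext i
    fin_cases i <;> simp [Mop]
  simp only [Function.comp, zero_add, h5]
  rw [T_apply]
  have h6 : ((t⁻¹ : ℝ) • (Mop t (Φ u) - Φ u)) = ((t⁻¹ : ℝ) : ℂ) • (Mop t (Φ u) - Φ u) := by
    funext i; simp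
  rw [h6, map_smul, map_sub, LinearEquiv.symm_apply_apply]

theorem neg_generates : NegGenerates (AssocOp form) T := by
  intro u h
  have key : AssocOp form u h ↔ h = AE u := by
    constructor
    · rintro ⟨hu, hv⟩
      have : ∀ v : E, ⟪v, AE u⟫_ℂ = ⟪v, h⟫_ℂ := fun v => hv v trivial
      exact (ext_inner_left ℂ this).symm
    · rintro rfl
      exact ⟨trivial, fun v _ => rfl⟩
  rw [key]
  constructor
  · rintro rfl
    exact tendsto_T u
  · intro h'
    exact neg_injective (tendsto_nhds_unique h' (tendsto_T u))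

theorem abs_coeff1 (t : ℝ) (ht : 0 ≤ t) : |Real.exp (-t) * Real.cos (2 * t)| ≤ 1 := by
  rw [abs_mul, abs_of_pos (Real.exp_pos _)]
  exact mul_le_one₀ (Real.exp_le_one_iff.2 (by linarith)) (abs_nonneg _) (Real.abs_cos_le_one _)

theorem abs_coeff2 (t : ℝ) (ht : 0 ≤ t) : |Real.exp (-t) * Real.sin (2 * t)| ≤ 1 := by
  rw [abs_mul, abs_of_pos (Real.exp_pos _)]
  exact mul_le_one₀ (Real.exp_le_one_iff.2 (by linarith)) (abs_nonneg _) (Real.abs_sin_le_one _)

theorem T_val0 (t : ℝ) (f : E) : (T t f) 0 = (Real.exp (-t) * Real.cos (2 * t) : ℝ) * f 0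
      - (Real.exp (-t) * Real.sin (2 * t) : ℝ) * f 1 := by
  rw [T_apply, Φ_symm_apply]; rfl

theorem T_val1 (t : ℝ) (f : E) : (T t f) 1 = (Real.exp (-t) * Real.sin (2 * t) : ℝ) * f 0
      + (Real.exp (-t) * Real.cos (2 * t) : ℝ) * f 1 := by
  rw [T_apply, Φ_symm_apply]; rfl

theorem eLpNorm_top_count (f : Fin 2 → ℂ) :
    eLpNorm f ∞ (Measure.count : Measure (Fin 2)) = max ‖f 0‖ₑ ‖f 1‖ₑ := by
  rw [eLpNorm_exponent_top, eLpNormEssSup_count]
  apply le_antisymm
  · refine iSup_le fun i => ?_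
    fin_cases i
    · exact le_max_left _ _
    · exact le_max_right _ _
  · exact max_le (le_iSup (fun i => ‖f i‖ₑ) 0) (le_iSup (fun i => ‖f i‖ₑ) 1)

theorem T_bounded : LInftyBounded T := by
  refine ⟨2, by norm_num, fun t ht f _ => ?_⟩
  rw [eLpNorm_top_count, eLpNorm_top_count]
  have hmax : ∀ (a b : ℝ), |a| ≤ 1 → |b| ≤ 1 → ‖(a : ℂ) * f 0‖ₑ + ‖(b : ℂ) * f 1‖ₑ
      ≤ ENNReal.ofReal 2 * max ‖f 0‖ₑ ‖f 1‖ₑ := by
    intro a b ha hb
    have h1 : ‖(a : ℂ) * f 0‖ₑ ≤ max ‖f 0‖ₑ ‖f 1‖ₑ := by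
      rw [enorm_mul]
      have : ‖(a : ℂ)‖ₑ ≤ 1 := by
        rw [← ofReal_norm, Complex.norm_real, Real.norm_eq_abs]
        exact ENNReal.ofReal_le_one.2 ha
      calc ‖(a : ℂ)‖ₑ * ‖f 0‖ₑ ≤ 1 * ‖f 0‖ₑ := by gcongr
        _ = ‖f 0‖ₑ := one_mul _
        _ ≤ _ := le_max_left _ _
    have h2 : ‖(b : ℂ) * f 1‖ₑ ≤ max ‖f 0‖ₑ ‖f 1‖ₑ := by
      rw [enorm_mul]
      have : ‖(b : ℂ)‖ₑ ≤ 1 := by
        rw [← ofReal_norm, Complex.norm_real, Real.norm_eq_abs]
        exact ENNReal.ofReal_le_one.2 hb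
      calc ‖(b : ℂ)‖ₑ * ‖f 1‖ₑ ≤ 1 * ‖f 1‖ₑ := by gcongr
        _ = ‖f 1‖ₑ := one_mul _
        _ ≤ _ := le_max_right _ _
    have h3 : ENNReal.ofReal 2 = 2 := by norm_num
    rw [h3, two_mul]
    exact add_le_add h1 h2
  refine max_le ?_ ?_
  · rw [T_val0]
    refine le_trans (enorm_sub_le) ?_
    exact hmax _ _ (abs_coeff1 t ht) (abs_coeff2 t ht)
  · rw [T_val1]
    refine le_trans (enorm_add_le _ _) ?_
    exact hmax _ _ (abs_coeff2 t ht) (abs_coeff1 t ht)

theorem not_contractive (g : Fin 2 → ℝ) (hg : AdmissibleWeight Measure.count g) :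
    ¬ ContractiveFor T g := by
  intro hc
  have hpos : ∀ i, 0 < g i := Measure.ae_count_iff.1 hg.pos
  have h0 := hpos 0
  have h1 := hpos 1
  -- the basic inequality
  have key : ∀ (s : ℝ), |s| = 1 → ∀ t : ℝ, 0 ≤ t →
      |g 0 * (Real.exp (-t) * Real.cos (2 * t) * (g 0)⁻¹
        - Real.exp (-t) * Real.sin (2 * t) * (s * (g 1)⁻¹))| ≤ 1 ∧
      |g 1 * (Real.exp (-t) * Real.sin (2 * t) * (g 0)⁻¹
        + Real.exp (-t) * Real.cos (2 * t) * (s * (g 1)⁻¹))| ≤ 1 := by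
    intro s hs t ht
    let f : E := Φ.symm ![(((g 0)⁻¹ : ℝ) : ℂ), ((s * (g 1)⁻¹ : ℝ) : ℂ)]
    have f0 : f 0 = (((g 0)⁻¹ : ℝ) : ℂ) := Φ_symm_apply _ 0
    have f1 : f 1 = ((s * (g 1)⁻¹ : ℝ) : ℂ) := Φ_symm_apply _ 1
    have h := hc t ht f (memLp_all _ _ (by simp))
    rw [eLpNorm_top_count, eLpNorm_top_count, f0, f1, T_val0, T_val1, f0, f1] at h
    have hr : max ‖(g 0 : ℂ) * (((g 0)⁻¹ : ℝ) : ℂ)‖ₑ ‖(g 1 : ℂ) * ((s * (g 1)⁻¹ : ℝ) : ℂ)‖ₑ = 1 := by
      have e1 : ‖(g 0 : ℂ) * (((g 0)⁻¹ : ℝ) : ℂ)‖ₑ = 1 := by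
        rw [← Complex.ofReal_mul, mul_inv_cancel₀ h0.ne']; simp
      have e2 : ‖(g 1 : ℂ) * ((s * (g 1)⁻¹ : ℝ) : ℂ)‖ₑ = 1 := by
        rw [← Complex.ofReal_mul, mul_left_comm, mul_inv_cancel₀ h1.ne', mul_one,
          ← ofReal_norm, Complex.norm_real, Real.norm_eq_abs, hs]; simp
      rw [e1, e2, max_self]
    rw [hr, max_le_iff] at h
    constructor
    · have := h.1
      rw [← Complex.ofReal_mul, ← Complex.ofReal_mul, ← Complex.ofReal_sub, ← Complex.ofReal_mul,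
        ← ofReal_norm, Complex.norm_real, Real.norm_eq_abs, ENNReal.ofReal_le_one] at this
      exact this
    · have := h.2
      rw [← Complex.ofReal_mul, ← Complex.ofReal_mul, ← Complex.ofReal_add, ← Complex.ofReal_mul,
        ← ofReal_norm, Complex.norm_real, Real.norm_eq_abs, ENNReal.ofReal_le_one] at this
      exact this
  -- derivative argument
  have dlem : ∀ r : ℝ, (∀ t : ℝ, 0 ≤ t →
      Real.exp (-t) * Real.cos (2 * t) + Real.exp (-t) * Real.sin (2 * t) * r ≤ 1) → 2 * r ≤ 1 := by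
    intro r hr
    have hd : HasDerivAt (fun t : ℝ => Real.exp (-t) * Real.cos (2 * t)
        + Real.exp (-t) * Real.sin (2 * t) * r) (-1 + 2 * r) 0 := deriv1.add (deriv2.mul_const r)
    have h2 := (hasDerivAt_iff_tendsto_slope_zero.1 hd).mono_left
      (nhdsWithin_mono _ (fun t ht => ne_of_gt ht) : 𝓝[>] (0 : ℝ) ≤ 𝓝[≠] 0)
    have h3 : -1 + 2 * r ≤ 0 := by
      refine le_of_tendsto h2 ?_
      filter_upwards [self_mem_nhdsWithin] with t ht
      have ht' : 0 < t := ht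
      have := hr t ht'.le
      simp only [zero_add, smul_eq_mul]
      refine mul_nonpos_of_nonneg_of_nonpos (by positivity) ?_
      simp
      linarith
    linarith
  have ha : 2 * (g 0 / g 1) ≤ 1 := by
    apply dlem
    intro t ht
    have := (abs_le.1 (key (-1) (by simp) t ht).1).2
    have e : g 0 * (Real.exp (-t) * Real.cos (2 * t) * (g 0)⁻¹
        - Real.exp (-t) * Real.sin (2 * t) * (-1 * (g 1)⁻¹))
        = Real.exp (-t) * Real.cos (2 * t) + Real.exp (-t) * Real.sin (2 * t) * (g 0 / g 1) := by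
      field_simp
      ring
    rw [e] at this
    exact this
  have hb : 2 * (g 1 / g 0) ≤ 1 := by
    apply dlem
    intro t ht
    have := (abs_le.1 (key 1 (by simp) t ht).2).2
    have e : g 1 * (Real.exp (-t) * Real.sin (2 * t) * (g 0)⁻¹
        + Real.exp (-t) * Real.cos (2 * t) * (1 * (g 1)⁻¹))
        = Real.exp (-t) * Real.cos (2 * t) + Real.exp (-t) * Real.sin (2 * t) * (g 1 / g 0) := by
      field_simp
      ring
    rw [e] at this
    exact this
  have hab : (g 0 / g 1) * (g 1 / g 0) = 1 := by field_simp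
  have p0 : 0 < g 0 / g 1 := div_pos h0 h1
  have p1 : 0 < g 1 / g 0 := div_pos h1 h0
  nlinarith

/-- **Negative answer to Q1.** There are a `σ`-finite measure space and a densely defined closed
sectorial form whose semigroup is `L^∞`-bounded and is contractive for no admissible weight. -/
theorem result : ∃ (Ω : Type) (_ : MeasurableSpace Ω) (μ : Measure Ω) (_ : SigmaFinite μ)
    (F : SesqForm (Lp ℂ 2 μ)) (T : ℝ → Lp ℂ 2 μ → Lp ℂ 2 μ),
    Dense (F.V : Set (Lp ℂ 2 μ)) ∧ Sectorial F ∧ ClosedForm F ∧ IsC0Semigroup T ∧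
    NegGenerates (AssocOp F) T ∧ LInftyBounded T ∧
    ∀ g : Ω → ℝ, AdmissibleWeight μ g → ¬ ContractiveFor T g := by
  refine ⟨Fin 2, inferInstance, Measure.count, inferInstance, form, T, ?_, form_sectorial,
    form_closed, T_semigroup, neg_generates, T_bounded, not_contractive⟩
  show Dense ((⊤ : Submodule ℂ E) : Set E)
  simp

end Pool.Agent.Results.MP_916daf_an.RotationSemigroup
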